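import Pool.Agent.H75.RW.Targets
import Pool.Agent.H74.TG.PAS

/-!
Module PAN of the project RW (the length of one pass of the tag system).
-/

set_option autoImplicit false

open List Pool.Agent.H68.TG Pool.Agent.H74.TG

namespace Pool.Agent.H75.RW

lemma panMain (w : List Bool) : ∀ (s : Bool) (o : List Bool), (2 ≤ (cur s w o).length ∨ w = []) →
    ∃ n, 2 * n + cond s 1 0 = (emb w).length + cond (st s w) 1 0 ∧
      step^[n] (cur s w o) = cur (st s w) [] (o ++ tr s w) ∧
      ∀ j < n, 2 ≤ (step^[j] (cur s w o)).length := by
  induction w with
  | nil =>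
    intro s o _
    refine ⟨0, ?_, ?_, fun j hj => absurd hj (Nat.not_lt_zero j)⟩
    · cases s <;> simp [emb, st]
    · cases s <;> simp [cur, st, tr]
  | cons c w ih =>
    intro s o h
    have hlen : 2 ≤ (cur s (c :: w) o).length := by
      rcases h with h | h
      · exact h
      · exact absurd h (List.cons_ne_nil _ _)
    have key : ∀ (s' : Bool) (o' : List Bool), step (cur s (c :: w) o) = cur s' w (o ++ o') →
        (2 ≤ (cur s' w (o ++ o')).length ∨ w = []) → st s (c :: w) = st s' w →
        tr s (c :: w) = o' ++ tr s' w →
        (emb (c :: w)).length + cond s' 1 0 = (emb w).length + 2 + cond s 1 0 →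
        ∃ n, 2 * n + cond s 1 0 = (emb (c :: w)).length + cond (st s (c :: w)) 1 0 ∧
          step^[n] (cur s (c :: w) o) = cur (st s (c :: w)) [] (o ++ tr s (c :: w)) ∧
          ∀ j < n, 2 ≤ (step^[j] (cur s (c :: w) o)).length := by
      intro s' o' h1 h2 h3 h4 h5
      obtain ⟨n, hc, hn, hj⟩ := ih s' (o ++ o') h2
      refine ⟨n + 1, ?_, ?_, ?_⟩
      · rw [h3]
        omega
      · rw [Function.iterate_succ_apply, h1, hn, h3, h4, List.append_assoc]
      · intro j hjn
        cases j with
        | zero => exact hlen
        | succ j =>
          rw [Function.iterate_succ_apply, h1]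
          exact hj j (by omega)
    cases s
    · cases c
      · refine key true [true] (step_ff w o hlen) ?_ rfl rfl (by simp [emb])
        by_cases hw : w = []
        · exact Or.inr hw
        · left
          have := emb_ne hw
          simp [cur, emb_app, emb]
          omega
      · refine key false [false] (step_ft w o) ?_ rfl rfl (by simp [emb])
        by_cases hw : w = []
        · exact Or.inr hw
        · left
          have := emb_ne hw
          simp [cur, emb_app, emb]
          omega
    · cases c
      · rw [cur_tf] at hlen ⊢
        obtain ⟨n, h1, hn, hj⟩ := ih false o (Or.inl hlen)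
        refine ⟨n, ?_, hn, hj⟩
        have h2 : st true (false :: w) = st false w := rfl
        rw [h2]
        simp [emb] at h1 ⊢
        omega
      · refine key true [false, false, false] (step_tt w o hlen) ?_ rfl rfl (by simp [emb])
        by_cases hw : w = []
        · exact Or.inr hw
        · left
          have := emb_ne hw
          simp [cur, emb_app, emb]
          omega

theorem pf_PAN : T_PAN := by
  intro s w hq
  have h0 : tape (s, w) = cur s w [] := by simp [tape, cur, emb]
  have h1 : tape (pass (s, w)) = cur (st s w) [] ([] ++ tr s w) := by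
    simp [tape, cur, emb, Pool.Agent.H68.TG.pass]
  obtain ⟨n, h2, h3, h4⟩ := panMain w s [] (Or.inl (by rw [← h0]; exact hq))
  have h5 : (tape (s, w)).length = (emb w).length - cond s 1 0 := by
    rw [h0]
    simp [cur, emb]
  rw [h0, h1]
  refine ⟨n, ?_, h3, h4⟩
  rw [← h0, h5]
  have h6 : 2 ≤ (emb w).length - cond s 1 0 := by rw [← h5]; exact hq
  omega

end Pool.Agent.H75.RW
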